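import Pool.Agent.W290.FrFlag

set_option autoImplicit false

namespace Pool.Agent.Results.MP_3614fc_co.SemiFiniteContainingHq1

open scoped LinearAlgebra.Projectivization

/-- the incidence graph of a point-line geometry -/
abbrev incidenceGraph {P L : Type} (I : P → L → Prop) : SimpleGraph (P ⊕ L) :=
  SimpleGraph.fromRel (fun x y : P ⊕ L => ∃ p l, x = Sum.inl p ∧ y = Sum.inr l ∧ I p l)

/-- a generalized hexagon: the incidence graph has diameter 6 and girth 12 -/
def IsGeneralizedHexagon {P L : Type} (I : P → L → Prop) : Prop :=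
  (incidenceGraph I).ediam = 6 ∧ (incidenceGraph I).egirth = 12

/-- the geometry `I` contains the geometry `I₀` as a subgeometry: there are a set `A` of points
and a set `B` of lines of `I` which, with the inherited incidence, form a geometry isomorphic
to `I₀` -/
def ContainsAsSubgeometry {P L P₀ L₀ : Type} (I : P → L → Prop) (I₀ : P₀ → L₀ → Prop) : Prop :=
  ∃ (A : Set P) (B : Set L) (e : A ≃ P₀) (f : B ≃ L₀), ∀ (a : A) (b : B),
    I a.1 b.1 ↔ I₀ (e a) (f b)

/-- the flags of `PG(2, K)`: incident pairs of a point and a line, both given by homogeneous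
coordinates, a point being on a line when the coordinate vectors are orthogonal -/
abbrev FlagPG2 (K : Type) [Field K] : Type :=
  {x : ℙ K (Fin 3 → K) × ℙ K (Fin 3 → K) // x.1.orthogonal x.2}

/-- the geometry `H(q, 1)` (`q` the number of elements of `K`): its points are the flags of
`PG(2, K)`, its lines are the points and the lines of `PG(2, K)`, and a flag is incident with
its two members -/
def Hq1 (K : Type) [Field K] : FlagPG2 K → (ℙ K (Fin 3 → K) ⊕ ℙ K (Fin 3 → K)) → Prop
  | x, Sum.inl p => x.1.1 = p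
  | x, Sum.inr l => x.1.2 = l

/-- For every finite field `K`, i.e. for every prime power `q`, there is a semi-finite
generalized hexagon which contains `H(q, 1)` as a subgeometry; it can be chosen with exactly
`s + 1` points on each line for every sufficiently large `s`. -/
theorem result (K : Type) [Field K] [Finite K] :
    Finite (FlagPG2 K) ∧ ∀ s : ℕ, Nat.card (FlagPG2 K) + 4 ≤ s →
      ∃ (P L : Type) (I : P → L → Prop), IsGeneralizedHexagon I ∧
        (∀ l, {p | I p l}.Finite ∧ {p | I p l}.ncard = s + 1) ∧ (∀ p, {l | I p l}.Infinite) ∧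
        ContainsAsSubgeometry I (Hq1 K) := by
  classical
  refine ⟨inferInstance, ?_⟩
  intro s hs
  have hFH := Pool.Agent.W290.Fr.flagFH (P := ℙ K (Fin 3 → K)) (L := ℙ K (Fin 3 → K))
  have hne : Nonempty (Pool.Agent.W290.Fr.Flag (ℙ K (Fin 3 → K)) (ℙ K (Fin 3 → K))) := by
    obtain ⟨p₁, p₂, p₃, l₁, l₂, l₃, -, -, -, h, -⟩ :=
      Configuration.ProjectivePlane.exists_config (P := ℙ K (Fin 3 → K)) (L := ℙ K (Fin 3 → K))
    exact ⟨⟨(p₂, l₂), h⟩⟩
  obtain ⟨P, L, I, h1, h2, h3, h4, φ, ψ, h5, h6, h7⟩ := hFH.semifinite hs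
  refine ⟨P, L, I, ⟨h1, h2⟩, h3, h4, Set.range φ, Set.range ψ,
    (Equiv.ofInjective φ h5).symm, (Equiv.ofInjective ψ h6).symm, ?_⟩
  rintro ⟨_, p, rfl⟩ ⟨_, l, rfl⟩
  have e1 : (Equiv.ofInjective φ h5).symm ⟨φ p, p, rfl⟩ = p := by
    rw [Equiv.symm_apply_eq]; rfl
  have e2 : (Equiv.ofInjective ψ h6).symm ⟨ψ l, l, rfl⟩ = l := by
    rw [Equiv.symm_apply_eq]; rfl
  rw [e1, e2, h7 p l]
  rcases l with l | l <;> exact Iff.rfl

end Pool.Agent.Results.MP_3614fc_co.SemiFiniteContainingHq1
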